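import Pool.Agent.KS6_88.TC.Cover

/-!
# Odd numbers, and primes, which are never the gap from a power of two to the next odd semiprime

A covering of the integers by 111 residue classes `a mod d` with pairwise coprime odd divisors
`p > 1` of `2 ^ d - 1`, in which every integer is covered at least THREE times.
-/

set_option autoImplicit false

namespace Pool.Agent.Results.MP_c49196_nt.TripleCovering

/-- A semiprime is a product of two primes, not necessarily distinct. -/
def Semiprime (s : ℕ) : Prop := ∃ p q : ℕ, p.Prime ∧ q.Prime ∧ s = p * q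

/-- `a n` is the distance from `2 ^ n` to the least odd semiprime that exceeds `2 ^ n`. -/
noncomputable def a (n : ℕ) : ℕ := sInf {s : ℕ | 2 ^ n < s ∧ Odd s ∧ Semiprime s} - 2 ^ n

/-- `k` is odd and, for every `n ≥ 0`, the number `2 ^ n + k` has at least four prime factors
counted with multiplicity, at least three of them distinct, and `k` is not the value `a n`. -/
def Missing (k : ℕ) : Prop :=
  Odd k ∧ ∀ n : ℕ, 4 ≤ (2 ^ n + k).primeFactorsList.length ∧
    3 ≤ (2 ^ n + k).primeFactors.card ∧ a n ≠ k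

open Pool.Agent.KS6_88.TC

theorem len_pos {n : ℕ} (h : 2 ≤ n) : 1 ≤ n.primeFactorsList.length := by
  obtain ⟨p, hp, hd⟩ := Nat.exists_prime_and_dvd (n := n) (by omega)
  exact List.length_pos_of_mem ((Nat.mem_primeFactorsList (by omega)).2 ⟨hp, hd⟩)

theorem len_mul {u v : ℕ} (hu : u ≠ 0) (hv : v ≠ 0) :
    (u * v).primeFactorsList.length = u.primeFactorsList.length + v.primeFactorsList.length := by
  rw [(Nat.perm_primeFactorsList_mul hu hv).length_eq, List.length_append]

theorem three {p q r m : ℕ} (hp : 2 ≤ p) (hq : 2 ≤ q) (hr : 2 ≤ r) (h1 : p.Coprime q)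
    (h2 : p.Coprime r) (h3 : q.Coprime r) (d1 : p ∣ m) (d2 : q ∣ m) (d3 : r ∣ m)
    (hlt : p * q * r < m) : 4 ≤ m.primeFactorsList.length ∧ 3 ≤ m.primeFactors.card := by
  have hm : m ≠ 0 := by omega
  constructor
  · have hd : p * q * r ∣ m :=
      (Nat.Coprime.mul_left h2 h3).mul_dvd_of_dvd_of_dvd (h1.mul_dvd_of_dvd_of_dvd d1 d2) d3
    obtain ⟨v, hv⟩ := hd
    have hv2 : 2 ≤ v := by
      by_contra hc
      have : v ≤ 1 := by omega
      have h5 : p * q * r * v ≤ p * q * r * 1 := Nat.mul_le_mul_left _ this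
      omega
    have hp0 : p ≠ 0 := by omega
    have hq0 : q ≠ 0 := by omega
    have hr0 : r ≠ 0 := by omega
    rw [hv, len_mul (mul_ne_zero (mul_ne_zero hp0 hq0) hr0) (by omega),
      len_mul (mul_ne_zero hp0 hq0) hr0, len_mul hp0 hq0]
    have := len_pos hp
    have := len_pos hq
    have := len_pos hr
    have := len_pos hv2
    omega
  · have key : ∀ x : ℕ, 2 ≤ x → x ∣ m → ∃ y ∈ m.primeFactors, y ∣ x := by
      intro x hx hxm
      obtain ⟨y, hy, hyx⟩ := Nat.exists_prime_and_dvd (n := x) (by omega)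
      exact ⟨y, Nat.mem_primeFactors.2 ⟨hy, hyx.trans hxm, hm⟩, hyx⟩
    obtain ⟨x, hx, hxp⟩ := key p hp d1
    obtain ⟨y, hy, hyq⟩ := key q hq d2
    obtain ⟨z, hz, hzr⟩ := key r hr d3
    have px := (Nat.mem_primeFactors.1 hx).1
    have py := (Nat.mem_primeFactors.1 hy).1
    have pz := (Nat.mem_primeFactors.1 hz).1
    have ne : ∀ {s t u w : ℕ}, u.Prime → Nat.Coprime s t → u ∣ s → w ∣ t → u ≠ w := by
      intro s t u w hu hst h1 h2 he
      subst he
      exact hu.one_lt.ne' (Nat.eq_one_of_dvd_coprimes hst h1 h2)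
    have n1 : x ≠ y := ne px h1 hxp hyq
    have n2 : x ≠ z := ne px h2 hxp hzr
    have n3 : y ≠ z := ne py h3 hyq hzr
    have hsub : ({x, y, z} : Finset ℕ) ⊆ m.primeFactors := by
      intro w hw
      simp only [Finset.mem_insert, Finset.mem_singleton] at hw
      rcases hw with rfl | rfl | rfl <;> assumption
    have hcard : ({x, y, z} : Finset ℕ).card = 3 := by
      rw [Finset.card_eq_three]
      exact ⟨x, y, z, n1, n2, n3, rfl⟩
    rw [← hcard]
    exact Finset.card_le_card hsub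

/-- the odd numbers of the covering -/
def P : ℕ := (L.map fun t => t.2.2).prod

theorem dvd_P {t : ℕ × ℕ × ℕ} (ht : t ∈ L) : t.2.2 ∣ P :=
  List.dvd_prod (List.mem_map.2 ⟨t, ht, rfl⟩)

theorem P_pos : 0 < P := by
  unfold P
  apply List.prod_pos
  intro x hx
  obtain ⟨t, ht, rfl⟩ := List.mem_map.1 hx
  have := (basic t ht).1
  omega

/-- the chosen residue modulo `p` -/
def res (t : ℕ × ℕ × ℕ) : ℕ := t.2.2 - 2 ^ t.2.1 % t.2.2

theorem dvd_res {t : ℕ × ℕ × ℕ} (ht : t ∈ L) : t.2.2 ∣ 2 ^ t.2.1 + res t := by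
  have h2 := (basic t ht).1
  have hlt : 2 ^ t.2.1 % t.2.2 < t.2.2 := Nat.mod_lt _ (by omega)
  have e : 2 ^ t.2.1 + res t = t.2.2 * (2 ^ t.2.1 / t.2.2) + t.2.2 := by
    unfold res
    have := Nat.div_add_mod (2 ^ t.2.1) t.2.2
    omega
  rw [e]
  exact dvd_add (dvd_mul_right _ _) dvd_rfl

theorem dvd_pow_add {t : ℕ × ℕ × ℕ} (ht : t ∈ L) {k n : ℕ} (hk : k ≡ res t [MOD t.2.2])
    (hn : n % t.1 = t.2.1) : t.2.2 ∣ 2 ^ n + k := by
  have h1 : 2 ^ n ≡ 2 ^ t.2.1 [MOD t.2.2] := by
    have hb := (basic t ht).2.2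
    have h2 := (basic t ht).1
    have h3 : 2 ^ t.1 ≡ 1 [MOD t.2.2] := by
      unfold Nat.ModEq
      rw [hb, Nat.mod_eq_of_lt (by omega)]
    have h4 := (h3.pow (n / t.1)).mul_right (2 ^ (n % t.1))
    rwa [one_pow, one_mul, ← pow_mul, ← pow_add, Nat.div_add_mod, hn] at h4
  exact (Nat.modEq_zero_iff_dvd.1 ((h1.add hk).trans
    (Nat.modEq_zero_iff_dvd.2 (dvd_res ht))))

theorem cop_pow {t : ℕ × ℕ × ℕ} (ht : t ∈ L) (m : ℕ) : Nat.Coprime (2 ^ m) t.2.2 := by
  apply Nat.Coprime.pow_left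
  rw [Nat.coprime_two_left]
  exact Nat.odd_iff.2 (basic t ht).2.1

theorem res_cop {t : ℕ × ℕ × ℕ} (ht : t ∈ L) {k : ℕ} (hk : k ≡ res t [MOD t.2.2]) :
    k.Coprime t.2.2 := by
  have h1 : t.2.2 ∣ 2 ^ t.2.1 + k :=
    Nat.modEq_zero_iff_dvd.1 ((hk.add_left _).trans (Nat.modEq_zero_iff_dvd.2 (dvd_res ht)))
  have g1 : Nat.gcd k t.2.2 ∣ 2 ^ t.2.1 :=
    (Nat.dvd_add_left (Nat.gcd_dvd_left k t.2.2)).1 ((Nat.gcd_dvd_right k t.2.2).trans h1)
  exact Nat.eq_one_of_dvd_coprimes (cop_pow ht t.2.1) g1 (Nat.gcd_dvd_right k t.2.2)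

theorem missing_of {k : ℕ} (hodd : Odd k) (hk : ∀ t ∈ L, k ≡ res t [MOD t.2.2]) (hP : P < k) :
    Missing k := by
  have main : ∀ n : ℕ, 4 ≤ (2 ^ n + k).primeFactorsList.length ∧
      3 ≤ (2 ^ n + k).primeFactors.card := by
    intro n
    obtain ⟨s, hs, hlen, hsr⟩ := exists_three n
    have hcop := coprime_L.sublist hs
    have hdP : (s.map fun t => t.2.2).prod ∣ P := (hs.map _).prod_dvd_prod
    match s, hlen, hs, hsr, hcop, hdP with
    | [t, u, w], _, hs, hsr, hcop, hdP =>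
      have mt : t ∈ L := hs.subset (by simp)
      have mu : u ∈ L := hs.subset (by simp)
      have mw : w ∈ L := hs.subset (by simp)
      simp only [List.pairwise_cons, List.mem_cons, List.not_mem_nil, or_false, forall_eq_or_imp,
        forall_eq] at hcop
      simp only [List.map_cons, List.map_nil, List.prod_cons, List.prod_nil, mul_one] at hdP
      have hle : t.2.2 * (u.2.2 * w.2.2) ≤ P := Nat.le_of_dvd P_pos hdP
      refine three (basic t mt).1 (basic u mu).1 (basic w mw).1 hcop.1.1 hcop.1.2 hcop.2.1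
        (dvd_pow_add mt (hk t mt) (hsr t (by simp)))
        (dvd_pow_add mu (hk u mu) (hsr u (by simp)))
        (dvd_pow_add mw (hk w mw) (hsr w (by simp))) ?_
      rw [mul_assoc]
      have : k ≤ 2 ^ n + k := Nat.le_add_left _ _
      omega
  refine ⟨hodd, fun n => ⟨(main n).1, (main n).2, ?_⟩⟩
  intro hn
  have hk0 : 0 < k := by omega
  unfold a at hn
  set A : Set ℕ := {s : ℕ | 2 ^ n < s ∧ Odd s ∧ Semiprime s} with hA
  have hne : A.Nonempty := by
    by_contra hcon
    rw [Set.not_nonempty_iff_eq_empty] at hcon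
    rw [hcon, Nat.sInf_empty, Nat.zero_sub] at hn
    omega
  obtain ⟨h1, h2, h3⟩ := Nat.sInf_mem hne
  have h4 : sInf A = 2 ^ n + k := by omega
  rw [h4] at h3
  obtain ⟨p, q, hp, hq, hpq⟩ := h3
  have h5 := (main n).1
  rw [hpq, len_mul hp.ne_zero hq.ne_zero, Nat.primeFactorsList_prime hp,
    Nat.primeFactorsList_prime hq] at h5
  simp at h5

/-- **Infinitely many primes, and infinitely many numbers in every residue class to a coprime
modulus, are never the gap from a power of two to the next odd semiprime.** There are an odd `k₀`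
and an even `M`, coprime to each other, such that every `k ≥ M` congruent to `k₀` modulo `M` is
missing; moreover, for every `B` coprime to `M`, every class `b mod B` contains infinitely many
missing numbers, and if `b` is coprime to `B` it contains infinitely many missing primes. -/
theorem result : ∃ k₀ M : ℕ, Odd k₀ ∧ Even M ∧ 0 < M ∧ k₀.Coprime M ∧
    (∀ k : ℕ, k ≡ k₀ [MOD M] → M ≤ k → Missing k) ∧
    (∀ B b : ℕ, 0 < B → B.Coprime M → {k : ℕ | k ≡ b [MOD B] ∧ Missing k}.Infinite) ∧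
    (∀ B b : ℕ, 0 < B → B.Coprime M → b.Coprime B →
      {k : ℕ | k.Prime ∧ k ≡ b [MOD B] ∧ Missing k}.Infinite) := by
  obtain ⟨k₁, hk₁⟩ := Nat.chineseRemainderOfList res (fun t => t.2.2) L coprime_L
  have hPodd : Nat.Coprime 2 P := by
    unfold P
    rw [Nat.coprime_list_prod_right_iff]
    intro x hx
    obtain ⟨t, ht, rfl⟩ := List.mem_map.1 hx
    have := cop_pow ht 1
    rwa [pow_one] at this
  obtain ⟨k₀, hk2, hkP⟩ := Nat.chineseRemainder hPodd 1 k₁
  have hP0 := P_pos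
  have hres : ∀ k : ℕ, k ≡ k₀ [MOD 2 * P] → ∀ t ∈ L, k ≡ res t [MOD t.2.2] := by
    intro k hk t ht
    have h1 : k ≡ k₀ [MOD t.2.2] := hk.of_dvd ((dvd_P ht).trans (dvd_mul_left P 2))
    have h2 : k₀ ≡ k₁ [MOD t.2.2] := hkP.of_dvd (dvd_P ht)
    exact (h1.trans h2).trans (hk₁ t ht)
  have hodd : ∀ k : ℕ, k ≡ k₀ [MOD 2 * P] → Odd k := by
    intro k hk
    have h1 : k ≡ 1 [MOD 2] := (hk.of_dvd (dvd_mul_right 2 P)).trans hk2
    exact Nat.odd_iff.2 h1
  have hmiss : ∀ k : ℕ, k ≡ k₀ [MOD 2 * P] → 2 * P ≤ k → Missing k := fun k hk hle =>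
    missing_of (hodd k hk) (hres k hk) (by omega)
  have hcop : k₀.Coprime (2 * P) := by
    apply Nat.Coprime.mul_right
    · exact (Nat.coprime_two_left.2 (hodd k₀ rfl)).symm
    · unfold P
      rw [Nat.coprime_list_prod_right_iff]
      intro x hx
      obtain ⟨t, ht, rfl⟩ := List.mem_map.1 hx
      exact res_cop ht (hres k₀ rfl t ht)
  have hM0 : 0 < 2 * P := by omega
  refine ⟨k₀, 2 * P, hodd k₀ rfl, even_two_mul P, hM0, hcop, hmiss, ?_, ?_⟩
  · intro B b hB hBM
    obtain ⟨c, hc1, hc2⟩ := Nat.chineseRemainder hBM b k₀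
    refine Set.infinite_of_injective_forall_mem
      (f := fun j : ℕ => c + B * (2 * P) * (j + 1)) ?_ ?_
    · intro i j hij
      simp only at hij
      have h1 : B * (2 * P) * (i + 1) = B * (2 * P) * (j + 1) := by omega
      have h2 := Nat.eq_of_mul_eq_mul_left (Nat.mul_pos hB hM0) h1
      omega
    · intro j
      have e1 : c + B * (2 * P) * (j + 1) ≡ b [MOD B] := by
        have : c + B * (2 * P) * (j + 1) ≡ c + 0 [MOD B] := Nat.ModEq.add_left _
          (Nat.modEq_zero_iff_dvd.2 ((dvd_mul_right B _).mul_right _))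
        exact this.trans hc1
      have e2 : c + B * (2 * P) * (j + 1) ≡ k₀ [MOD 2 * P] := by
        have : c + B * (2 * P) * (j + 1) ≡ c + 0 [MOD 2 * P] := Nat.ModEq.add_left _
          (Nat.modEq_zero_iff_dvd.2 ((dvd_mul_left _ B).mul_right _))
        exact this.trans hc2
      refine ⟨e1, hmiss _ e2 ?_⟩
      calc 2 * P = 1 * (2 * P) * 1 := by ring
        _ ≤ B * (2 * P) * (j + 1) := by gcongr <;> omega
        _ ≤ _ := Nat.le_add_left _ _
  · intro B b hB hBM hbB
    obtain ⟨c, hc1, hc2⟩ := Nat.chineseRemainder hBM b k₀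
    have hcB : c.Coprime B := by
      rw [Nat.Coprime, hc1.gcd_eq]; exact hbB
    have hcM : c.Coprime (2 * P) := by
      rw [Nat.Coprime, hc2.gcd_eq]; exact hcop
    have hcop2 : c.Coprime (B * (2 * P)) := hcB.mul_right hcM
    have : NeZero (B * (2 * P)) := ⟨(Nat.mul_pos hB hM0).ne'⟩
    have hinf := Nat.infinite_setOfPred_prime_and_eq_mod ((ZMod.isUnit_iff_coprime c (B * (2 * P))).2 hcop2)
    have hinf2 := hinf.sdiff (Set.finite_lt_nat (2 * P))
    refine hinf2.mono ?_
    rintro k ⟨⟨hkp, hkc⟩, hk3⟩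
    have h1 : k ≡ c [MOD B * (2 * P)] := (ZMod.natCast_eq_natCast_iff k c _).1 hkc
    refine ⟨hkp, (h1.of_dvd (dvd_mul_right B _)).trans hc1,
      hmiss k ((h1.of_dvd (dvd_mul_left _ B)).trans hc2) ?_⟩
    simpa using hk3

end Pool.Agent.Results.MP_c49196_nt.TripleCovering
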